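import Pool.Agent.H37.LES.Defs

/-! L5: anti-divergence of vector errors. -/

open MeasureTheory Set Filter Topology
open scoped ContDiff ENNReal
open H36.MHD

noncomputable section

namespace H37.LES

instance instHaarX : (volume : Measure X).IsAddHaarMeasure := by
  rw [Measure.volume_eq_prod]
  infer_instance

/-- coordinate direction in space-time -/
def ev (i : Fin 3) : X := (0, Pi.single i 1)

/-- shear maps preserve the product measure -/
lemma shear_mp (ν : Measure ℝ) [SFinite ν] (e : X) :
    MeasurePreserving (fun p : ℝ × X => (p.1, p.2 - p.1 • e)) (ν.prod volume) (ν.prod volume) := by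
  refine (MeasurePreserving.id ν).skew_product (g := fun u z => z - u • e) ?_ ?_
  · fun_prop
  · refine Eventually.of_forall fun u => ?_
    have : MeasurePreserving (fun z : X => z - u • e) volume volume :=
      measurePreserving_sub_right volume (u • e)
    exact this.map_eq

lemma shear_int (F : X → ℝ) (hF : Integrable F) (D : ℝ) (e : X) :
    Integrable (fun p : ℝ × X => F (p.2 - p.1 • e))
      ((volume.restrict (Ioc 0 D)).prod volume) := by
  have h1 : Integrable (fun p : ℝ × X => F p.2) ((volume.restrict (Ioc 0 D)).prod volume) :=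
    hF.comp_snd _
  exact (shear_mp (volume.restrict (Ioc 0 D)) e).integrable_comp_of_integrable h1

/-- directional antiderivative -/
def anti (F : X → ℝ) (D : ℝ) (e : X) (z : X) : ℝ := -∫ u in Ioc 0 D, F (z - u • e)

lemma anti_int (F : X → ℝ) (hF : Integrable F) (D : ℝ) (e : X) : Integrable (anti F D e) :=
  (shear_int F hF D e).integral_prod_right.neg

lemma anti_bound (F : X → ℝ) (hF : Integrable F) (D : ℝ) (hD : 0 ≤ D) (e : X) :
    ∫ z, |anti F D e z| ≤ D * ∫ z, |F z| := by
  have h0 := (shear_int F hF D e)
  have h1 : Integrable (fun p : ℝ × X => |F (p.2 - p.1 • e)|)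
      ((volume.restrict (Ioc 0 D)).prod volume) := h0.abs
  calc ∫ z, |anti F D e z| ≤ ∫ z, ∫ u in Ioc 0 D, |F (z - u • e)| := by
        refine integral_mono (anti_int F hF D e).abs h1.integral_prod_right (fun z => ?_)
        show |-∫ u in Ioc 0 D, F (z - u • e)| ≤ _
        rw [abs_neg]
        exact abs_integral_le_integral_abs
    _ = ∫ u in Ioc 0 D, ∫ z, |F (z - u • e)| := by
        rw [integral_integral_swap]
        exact h1.swap
    _ = ∫ u in Ioc 0 D, ∫ z, |F z| := by
        congr 1
        ext u
        exact integral_sub_right_eq_self (fun z => |F z|) (u • e)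
    _ = D * ∫ z, |F z| := by
        simp [hD]

lemma dx_line {ψ : X → ℝ} (hψ : ContDiff ℝ ∞ ψ) (i : Fin 3) (D : ℝ) (hD : 0 ≤ D) (z : X) :
    ∫ u in Ioc 0 D, dx i ψ (z + u • ev i) = ψ (z + D • ev i) - ψ z := by
  rw [← intervalIntegral.integral_of_le hD]
  have h1 : ∀ u ∈ uIcc 0 D, HasDerivAt (fun u : ℝ => ψ (z + u • ev i))
      (dx i ψ (z + u • ev i)) u := by
    intro u _
    have h2 : HasDerivAt (fun u : ℝ => z + u • ev i) (ev i) u := by
      have := ((hasDerivAt_id u).smul_const (ev i)).const_add z
      simpa using this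
    exact (smooth_diff hψ (z + u • ev i)).hasFDerivAt.comp_hasDerivAt u h2
  have hcont : Continuous (fun u : ℝ => dx i ψ (z + u • ev i)) :=
    (smooth_dx hψ i).continuous.comp (by fun_prop)
  rw [intervalIntegral.integral_eq_sub_of_hasDerivAt h1 (hcont.intervalIntegrable _ _)]
  simp

lemma anti_ibp (F : X → ℝ) (hF : Integrable F) (D : ℝ) (hD : 0 ≤ D) (i : Fin 3) (ψ : X → ℝ)
    (hψ : ContDiff ℝ ∞ ψ) (hc : HasCompactSupport ψ) :
    ∫ z, anti F D (ev i) z * dx i ψ z = (∫ z, F z * ψ z) - ∫ z, F z * ψ (z + D • ev i) := by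
  set ν : Measure ℝ := volume.restrict (Ioc 0 D) with hν
  have hcs : HasCompactSupport (dx i ψ) :=
    hc.mono' ((subset_tsupport _).trans (tsupport_dx_subset ψ i))
  have hcont : Continuous (dx i ψ) := (smooth_dx hψ i).continuous
  obtain ⟨C, hC⟩ := hcont.bounded_above_of_compact_support hcs
  obtain ⟨C', hC'⟩ := hψ.continuous.bounded_above_of_compact_support hc
  have hI1 : Integrable (fun p : ℝ × X => F (p.2 - p.1 • ev i) * dx i ψ p.2)
      (ν.prod volume) := by
    refine (shear_int F hF D (ev i)).mul_bdd (c := C) ?_ (Eventually.of_forall fun p => hC _)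
    exact (hcont.comp continuous_snd).aestronglyMeasurable
  have hI2 : Integrable (fun p : ℝ × X => F p.2 * dx i ψ (p.2 + p.1 • ev i))
      (ν.prod volume) := by
    refine (hF.comp_snd ν).mul_bdd (c := C) ?_ (Eventually.of_forall fun p => hC _)
    exact (hcont.comp (by fun_prop)).aestronglyMeasurable
  have hF1 : Integrable (fun z => F z * ψ z) :=
    hF.mul_bdd (c := C') hψ.continuous.aestronglyMeasurable (Eventually.of_forall fun p => hC' _)
  have hF2 : Integrable (fun z => F z * ψ (z + D • ev i)) :=
    hF.mul_bdd (c := C') (hψ.continuous.comp (g := ψ) (f := fun z : X => z + D • ev i) (by fun_prop)).aestronglyMeasurable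
      (Eventually.of_forall fun p => hC' _)
  have e1 : ∀ z, anti F D (ev i) z * dx i ψ z
      = -∫ u, F (z - u • ev i) * dx i ψ z ∂ν := by
    intro z
    rw [integral_mul_const]
    simp [anti, hν]
  simp_rw [e1]
  rw [integral_neg, integral_integral_swap
    (f := fun z u => F (z - u • ev i) * dx i ψ z) hI1.swap]
  have e2 : ∀ u : ℝ, ∫ z, F (z - u • ev i) * dx i ψ z = ∫ z, F z * dx i ψ (z + u • ev i) := by
    intro u
    have := integral_sub_right_eq_self (μ := (volume : Measure X))
      (fun z => F z * dx i ψ (z + u • ev i)) (u • ev i)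
    rw [← this]
    congr 1
    ext z
    simp
  simp_rw [e2]
  rw [integral_integral_swap (f := fun u z => F z * dx i ψ (z + u • ev i)) hI2]
  have e3 : ∀ z, ∫ u, F z * dx i ψ (z + u • ev i) ∂ν
      = F z * ψ (z + D • ev i) - F z * ψ z := by
    intro z
    rw [integral_const_mul, dx_line hψ i D hD z]
    ring
  simp_rw [e3]
  rw [integral_sub hF2 hF1]
  exact neg_sub _ _

theorem antidiv (P : Prob) : ∃ C, 0 ≤ C ∧ ∀ h : Fin 3 → X → ℝ, (∀ i, Integrable (h i) P.μ) →
    ∃ R, P.IsErr R ∧ P.L1 R ≤ C * ∑ i, ∫ z, |h i z| ∂P.μ ∧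
      ∀ φ, P.IsTest φ → ∫ z, ∑ i, h i z * φ i z ∂P.μ = P.Bd R φ := by
  obtain ⟨L, hL⟩ := P.hb.exists_norm_le
  set D : ℝ := 2 * |L| + 1 with hDdef
  have hD : 0 ≤ D := by positivity
  have hm : MeasurableSet (cyl P.Ω P.T) := measurableSet_Ioo.prod P.hΩ.measurableSet
  refine ⟨D, hD, fun h hh => ?_⟩
  set F : Fin 3 → X → ℝ := fun i => (cyl P.Ω P.T).indicator (h i) with hFdef
  have hF : ∀ i, Integrable (F i) := fun i => (integrable_indicator_iff hm).2 (hh i)
  have hFabs : ∀ i, ∫ z, |F i z| = ∫ z, |h i z| ∂P.μ := by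
    intro i
    rw [← integral_indicator hm]
    congr 1
    ext z
    by_cases hz : z ∈ cyl P.Ω P.T <;> simp [hFdef, hz]
  set Rd : Fin 3 → X → ℝ := fun i => anti (F i) D (ev i) with hRd
  have hRdi : ∀ i, Integrable (Rd i) := fun i => anti_int (F i) (hF i) D (ev i)
  refine ⟨fun i j z => if i = j then Rd i z else 0, ⟨?_, ?_⟩, ?_, ?_⟩
  · intro i j
    by_cases hij : i = j
    · simpa [hij] using (hRdi j).restrict (s := cyl P.Ω P.T)
    · simp [hij]
  · intro i j z
    by_cases hij : i = j
    · simp [hij]
    · simp [hij, Ne.symm hij]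
  · unfold Prob.L1
    rw [Finset.mul_sum]
    refine Finset.sum_le_sum fun i _ => ?_
    rw [Finset.sum_eq_single i]
    · simp only [if_true]
      calc ∫ z, |Rd i z| ∂P.μ ≤ ∫ z, |Rd i z| :=
            setIntegral_le_integral (hRdi i).abs (Eventually.of_forall fun z => abs_nonneg _)
        _ ≤ D * ∫ z, |F i z| := anti_bound (F i) (hF i) D hD (ev i)
        _ = D * ∫ z, |h i z| ∂P.μ := by rw [hFabs]
    · intro j _ hj
      simp [Ne.symm hj]
    · simp
  · intro φ hφ
    unfold Prob.Bd
    have hbd : ∀ i, ∃ C, ∀ z, ‖φ i z‖ ≤ C := fun i =>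
      (hφ.smooth i).continuous.bounded_above_of_compact_support (hφ.compact i)
    have hcs : ∀ i, HasCompactSupport (dx i (φ i)) := fun i =>
      (hφ.compact i).mono' ((subset_tsupport _).trans (tsupport_dx_subset (φ i) i))
    have hbd' : ∀ i, ∃ C, ∀ z, ‖dx i (φ i) z‖ ≤ C := fun i =>
      (smooth_dx (hφ.smooth i) i).continuous.bounded_above_of_compact_support (hcs i)
    have e1 : ∀ z, ∑ i, ∑ j, (if i = j then Rd i z else 0) * dx j (φ i) z
        = ∑ i, Rd i z * dx i (φ i) z := by
      intro z
      refine Finset.sum_congr rfl fun i _ => ?_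
      rw [Finset.sum_eq_single i]
      · simp
      · intro j _ hj
        simp [Ne.symm hj]
      · simp
    simp_rw [e1]
    rw [integral_finsetSum, integral_finsetSum]
    · refine Finset.sum_congr rfl fun i _ => ?_
      have e2 : ∫ z, Rd i z * dx i (φ i) z ∂P.μ = ∫ z, Rd i z * dx i (φ i) z := by
        refine setIntegral_eq_integral_of_forall_compl_eq_zero fun z hz => ?_
        by_cases hz2 : z.2 ∈ P.Ω
        · have hz1 : z.1 ∉ Ioo 0 P.T := fun h' => hz ⟨h', hz2⟩
          have : Rd i z = 0 := by
            simp only [hRd, anti, neg_eq_zero]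
            have : ∀ u : ℝ, F i (z - u • ev i) = 0 := by
              intro u
              refine indicator_of_notMem (fun h' => hz1 ?_) _
              have := h'.1
              simpa [ev] using this
            simp [this]
          rw [this, zero_mul]
        · have : dx i (φ i) z = 0 := by
            refine eq_zero_of_notMem ((tsupport_dx_subset (φ i) i).trans (hφ.supp i)) ?_
            exact fun h' => hz2 h'.2
          rw [this, mul_zero]
      rw [e2]
      show _ = ∫ z, anti (F i) D (ev i) z * dx i (φ i) z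
      rw [anti_ibp (F i) (hF i) D hD i (φ i) (hφ.smooth i) (hφ.compact i)]
      have e3 : ∫ z, F i z * φ i (z + D • ev i) = 0 := by
        have : ∀ z, F i z * φ i (z + D • ev i) = 0 := by
          intro z
          by_cases hz : z ∈ cyl P.Ω P.T
          · have : φ i (z + D • ev i) = 0 := by
              refine eq_zero_of_notMem (hφ.supp i) (fun h' => ?_)
              have h1 := hL _ h'.2
              have h2 := hL _ hz.2
              have h3 : |z.2 i| ≤ L := (norm_le_pi_norm z.2 i).trans h2
              have h4 : |z.2 i + D| ≤ L := by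
                have := (norm_le_pi_norm (z + D • ev i).2 i).trans h1
                simpa [ev] using this
              have h5 := le_abs_self L
              have h6 := abs_le.1 h3
              have h7 := abs_le.1 h4
              linarith [h6.1, h7.2]
            rw [this, mul_zero]
          · simp [hFdef, hz]
        simp [this]
      rw [e3, sub_zero, ← integral_indicator hm]
      congr 1
      ext z
      by_cases hz : z ∈ cyl P.Ω P.T <;> simp [hFdef, hz]
    · intro i _
      obtain ⟨C, hC⟩ := hbd' i
      exact ((hRdi i).restrict (s := cyl P.Ω P.T)).mul_bdd (c := C)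
        (smooth_dx (hφ.smooth i) i).continuous.aestronglyMeasurable (Eventually.of_forall fun z => hC z)
    · intro i _
      obtain ⟨C, hC⟩ := hbd i
      exact (hh i).mul_bdd (c := C) (hφ.smooth i).continuous.aestronglyMeasurable
        (Eventually.of_forall fun z => hC z)

end H37.LES
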