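import Pool.Agent.H93.LES_antidiv

/-! L2: smallness of products with intermittent periodic profiles. -/

open MeasureTheory Set Filter Topology
open scoped ContDiff ENNReal
open H36.MHD

noncomputable section

namespace H37.LES

lemma per_line (F : ℝ → ℝ) (hF : Continuous F) (h0 : ∀ s, 0 ≤ F s) (hper : ∀ s, F (s + 1) = F s)
    (L lam : ℝ) (hL : 0 ≤ L) (hlam : 1 ≤ lam) :
    ∫ s in Icc (-L) L, F (lam * s) ≤ (2 * L + 1) * ∫ s in (0:ℝ)..1, F s := by
  have hlam0 : 0 < lam := lt_of_lt_of_le one_pos hlam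
  have hp : Function.Periodic F 1 := hper
  rw [integral_Icc_eq_integral_Ioc, ← intervalIntegral.integral_of_le (by linarith),
    intervalIntegral.integral_comp_mul_left _ hlam0.ne']
  set N : ℕ := ⌈2 * lam * L⌉₊ with hN
  have hN1 : 2 * lam * L ≤ N := Nat.le_ceil _
  have hN2 : (N : ℝ) ≤ 2 * lam * L + 1 := (Nat.ceil_lt_add_one (by positivity)).le
  have hI : 0 ≤ ∫ s in (0:ℝ)..1, F s :=
    intervalIntegral.integral_nonneg zero_le_one (fun s _ => h0 s)
  have h1 : ∫ s in (lam * -L)..(lam * L), F s ≤ ∫ s in (lam * -L)..(lam * -L + (N : ℝ)), F s := by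
    refine intervalIntegral.integral_mono_interval le_rfl (by nlinarith) (by nlinarith) 
      (Eventually.of_forall fun s => h0 s) (hF.intervalIntegrable _ _)
  have h2 : ∫ s in (lam * -L)..(lam * -L + (N : ℝ)), F s = N * ∫ s in (0:ℝ)..1, F s := by
    have := hp.intervalIntegral_add_zsmul_eq (N : ℤ) (lam * -L)
      (fun a b => hF.intervalIntegrable a b)
    simp only [zsmul_eq_mul, Int.cast_natCast, mul_one] at this
    rw [this, hp.intervalIntegral_add_eq (lam * -L) 0]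
    simp
  rw [smul_eq_mul, inv_mul_le_iff₀ hlam0]
  calc ∫ s in (lam * -L)..(lam * L), F s ≤ N * ∫ s in (0:ℝ)..1, F s := h1.trans h2.le
    _ ≤ (2 * lam * L + 1) * ∫ s in (0:ℝ)..1, F s := mul_le_mul_of_nonneg_right hN2 hI
    _ ≤ (lam * (2 * L + 1)) * ∫ s in (0:ℝ)..1, F s := by
        refine mul_le_mul_of_nonneg_right ?_ hI
        nlinarith
    _ = lam * ((2 * L + 1) * ∫ s in (0:ℝ)..1, F s) := by ring

lemma per_box (F : ℝ → ℝ) (L lam : ℝ) (hL : 0 ≤ L) (l : Fin 3) :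
    ∫ x in Icc (fun _ : Fin 3 => -L) (fun _ => L), F (lam * x l)
      = (2 * L) ^ 2 * ∫ s in Icc (-L) L, F (lam * s) := by
  have h1 : (volume : Measure V3).restrict (Icc (fun _ : Fin 3 => -L) (fun _ => L))
      = Measure.pi (fun _ : Fin 3 => (volume : Measure ℝ).restrict (Icc (-L) L)) := by
    rw [← Set.pi_univ_Icc, volume_pi, Measure.restrict_pi_pi]
  rw [h1]
  have h2 : ∀ x : V3, F (lam * x l)
      = ∏ k : Fin 3, (fun (k : Fin 3) (s : ℝ) => if k = l then F (lam * s) else 1) k (x k) := by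
    intro x
    simp
  simp_rw [h2]
  rw [integral_fintype_prod_eq_prod (𝕜 := ℝ)
    (f := fun (k : Fin 3) (s : ℝ) => if k = l then F (lam * s) else 1)]
  have h3 : ∀ k : Fin 3, ∫ s in Icc (-L) L, (if k = l then F (lam * s) else 1)
      = if k = l then ∫ s in Icc (-L) L, F (lam * s) else 2 * L := by
    intro k
    by_cases hk : k = l
    · simp [hk]
    · simp only [hk, if_false]
      simp
      rw [max_eq_left (by linarith)]
      ring
  simp_rw [h3]
  fin_cases l <;> simp [Fin.prod_univ_three] <;> first | ring1 | (left; ring1)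

lemma per_cyl (P : Prob) : ∃ M, 0 ≤ M ∧ ∀ F : ℝ → ℝ, Continuous F → (∀ s, 0 ≤ F s) →
    (∀ s, F (s + 1) = F s) → ∀ lam, 1 ≤ lam → ∀ l : Fin 3,
    Integrable (fun z : X => F (lam * z.2 l)) P.μ ∧
    ∫ z, F (lam * z.2 l) ∂P.μ ≤ M * ∫ s in (0:ℝ)..1, F s := by
  obtain ⟨L', hL'⟩ := P.hb.exists_norm_le
  set L : ℝ := |L'| with hL
  have hL0 : 0 ≤ L := abs_nonneg _
  have hT := P.hT
  refine ⟨P.T * ((2 * L) ^ 2 * (2 * L + 1)), by positivity, ?_⟩
  intro F hF h0 hper lam hlam l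
  have hcont : Continuous (fun z : X => F (lam * z.2 l)) := by fun_prop
  set B : Set X := Icc (0:ℝ) P.T ×ˢ Icc (fun _ : Fin 3 => -L) (fun _ => L) with hB
  have hBc : IsCompact B := isCompact_Icc.prod isCompact_Icc
  have hBi : IntegrableOn (fun z : X => F (lam * z.2 l)) B :=
    hcont.continuousOn.integrableOn_compact hBc
  have hsub : cyl P.Ω P.T ⊆ B := by
    rintro z ⟨hz1, hz2⟩
    refine ⟨⟨hz1.1.le, hz1.2.le⟩, ?_⟩
    have h1 : ∀ i, |z.2 i| ≤ L := fun i =>
      ((norm_le_pi_norm z.2 i).trans (hL' _ hz2)).trans (le_abs_self _)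
    exact ⟨fun i => (abs_le.1 (h1 i)).1, fun i => (abs_le.1 (h1 i)).2⟩
  refine ⟨hBi.mono_set hsub, ?_⟩
  calc ∫ z, F (lam * z.2 l) ∂P.μ ≤ ∫ z in B, F (lam * z.2 l) :=
        setIntegral_mono_set hBi (Eventually.of_forall fun z => h0 _) hsub.eventuallyLE
    _ = ∫ z in B, (fun _ : ℝ => (1:ℝ)) z.1 * (fun x : V3 => F (lam * x l)) z.2 := by simp
    _ = P.T * ∫ x in Icc (fun _ : Fin 3 => -L) (fun _ => L), F (lam * x l) := by
        rw [Measure.volume_eq_prod, hB]
        have := setIntegral_prod_mul (μ := (volume : Measure ℝ)) (ν := (volume : Measure V3))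
          (fun _ : ℝ => (1:ℝ)) (fun x : V3 => F (lam * x l)) (Icc 0 P.T)
          (Icc (fun _ : Fin 3 => -L) (fun _ => L))
        rw [this]
        simp [hT.le]
    _ = P.T * ((2 * L) ^ 2 * ∫ s in Icc (-L) L, F (lam * s)) := by rw [per_box F L lam hL0 l]
    _ ≤ P.T * ((2 * L) ^ 2 * ((2 * L + 1) * ∫ s in (0:ℝ)..1, F s)) := by
        gcongr
        exact per_line F hF h0 hper L lam hL0 hlam
    _ = _ := by ring

lemma tail_small {μ : Measure X} (H : X → ℝ) (hH : MemLp H 2 μ) (η : ℝ) (hη : 0 < η) :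
    ∃ K : ℝ, 0 < K ∧ Integrable (fun z => if K < |H z| then (H z) ^ 2 else 0) μ ∧
      ∫ z, (if K < |H z| then (H z) ^ 2 else 0) ∂μ ≤ η := by
  have hsq : Integrable (fun z => (H z) ^ 2) μ := hH.integrable_sq
  have hmeas : ∀ K : ℝ, AEStronglyMeasurable (fun z => if K < |H z| then (H z) ^ 2 else 0) μ := by
    intro K
    obtain ⟨H', hH'm, hH'e⟩ := hH.aestronglyMeasurable
    refine ⟨fun z => if K < |H' z| then (H' z) ^ 2 else 0, ?_, ?_⟩
    · refine StronglyMeasurable.ite ?_ (hH'm.pow 2) stronglyMeasurable_const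
      exact measurableSet_lt measurable_const (hH'm.measurable.abs)
    · filter_upwards [hH'e] with z hz
      rw [hz]
  have hbd : ∀ K : ℝ, ∀ z, ‖(if K < |H z| then (H z) ^ 2 else 0)‖ ≤ (H z) ^ 2 := by
    intro K z
    split_ifs
    · simp
    · simp; positivity
  have htend : Tendsto (fun n : ℕ => ∫ z, (if (n + 1 : ℝ) < |H z| then (H z) ^ 2 else 0) ∂μ)
      atTop (𝓝 (∫ _, (0:ℝ) ∂μ)) := by
    refine tendsto_integral_of_dominated_convergence (fun z => (H z) ^ 2) (fun n => hmeas _)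
      hsq (fun n => Eventually.of_forall fun z => hbd _ z) (Eventually.of_forall fun z => ?_)
    refine tendsto_const_nhds.congr' ?_
    filter_upwards [eventually_ge_atTop ⌈|H z|⌉₊] with n hn
    have : |H z| ≤ n := (Nat.le_ceil _).trans (by exact_mod_cast hn)
    rw [if_neg (by linarith)]
  rw [integral_zero] at htend
  obtain ⟨n, hn⟩ := (htend.eventually (ge_mem_nhds hη)).exists
  refine ⟨n + 1, by positivity, hsq.mono' (hmeas _) (Eventually.of_forall fun z => ?_), hn⟩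
  exact hbd _ z

theorem small_product (P : Prob) (H : X → ℝ) (hH : MemLp H 2 P.μ) (A η : ℝ) (hη : 0 < η) :
    ∃ ε, 0 < ε ∧ ∀ a : X → ℝ, Continuous a → (∀ z, |a z| ≤ A) →
      ∀ Ψ : ℝ → ℝ, Continuous Ψ → (∀ s, Ψ (s + 1) = Ψ s) →
      ∫ s in (0:ℝ)..1, (Ψ s) ^ 2 = 1 → ∫ s in (0:ℝ)..1, |Ψ s| ≤ ε →
      ∀ lam, 1 ≤ lam → ∀ l : Fin 3,
        Integrable (fun z => |H z| * |a z| * |Ψ (lam * z.2 l)|) P.μ ∧
        ∫ z, |H z| * |a z| * |Ψ (lam * z.2 l)| ∂P.μ ≤ η := by
  obtain ⟨M, hM0, hM⟩ := per_cyl P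
  set B : ℝ := |A| + 1 with hB
  have hB0 : 0 < B := by positivity
  set θ : ℝ := η / (3 * B * (M + 1)) with hθ
  have hθ0 : 0 < θ := by positivity
  obtain ⟨K, hK0, hKi, hK⟩ := tail_small (μ := P.μ) H hH (η * (4 * θ) / (3 * B)) (by positivity)
  refine ⟨η / (3 * B * K * (M + 1)), by positivity, ?_⟩
  intro a hac haA Ψ hΨc hΨp hΨ2 hΨ1 lam hlam l
  have hMabs := hM (fun s => |Ψ s|) hΨc.abs (fun s => abs_nonneg _) (fun s => by simp [hΨp]) lam hlam l
  have hMsq := hM (fun s => (Ψ s) ^ 2) (hΨc.pow 2) (fun s => sq_nonneg _)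
    (fun s => by simp [hΨp]) lam hlam l
  beta_reduce at hMabs hMsq
  rw [hΨ2, mul_one] at hMsq
  have hpt : ∀ z, |H z| * |a z| * |Ψ (lam * z.2 l)| ≤ B * (K * |Ψ (lam * z.2 l)|
      + θ * (Ψ (lam * z.2 l)) ^ 2 + (4 * θ)⁻¹ * (if K < |H z| then (H z) ^ 2 else 0)) := by
    intro z
    set p := |Ψ (lam * z.2 l)| with hp
    have hp0 : 0 ≤ p := abs_nonneg _
    have hpsq : (Ψ (lam * z.2 l)) ^ 2 = p ^ 2 := (sq_abs _).symm
    set q := |H z| with hq
    have hq0 : 0 ≤ q := abs_nonneg _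
    have hqsq : (H z) ^ 2 = q ^ 2 := (sq_abs _).symm
    rw [hpsq, hqsq]
    have haB : |a z| ≤ B := (haA z).trans ((le_abs_self A).trans (by rw [hB]; linarith))
    have key : q * p ≤ K * p + θ * p ^ 2 + (4 * θ)⁻¹ * (if K < q then q ^ 2 else 0) := by
      by_cases h : K < q
      · rw [if_pos h]
        have h1 : q * p ≤ θ * p ^ 2 + (4 * θ)⁻¹ * q ^ 2 := by
          have h2 : 0 ≤ (4 * θ)⁻¹ * (q - 2 * θ * p) ^ 2 := by positivity
          have h3 : (4 * θ)⁻¹ * (q - 2 * θ * p) ^ 2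
              = (4 * θ)⁻¹ * q ^ 2 - q * p + θ * p ^ 2 := by
            field_simp
            ring
          linarith
        nlinarith [mul_nonneg hK0.le hp0]
      · rw [if_neg h]
        have h1 : q * p ≤ K * p := mul_le_mul_of_nonneg_right (not_lt.1 h) hp0
        nlinarith [mul_nonneg hθ0.le (sq_nonneg p)]
    calc q * |a z| * p = |a z| * (q * p) := by ring
      _ ≤ B * (q * p) := mul_le_mul_of_nonneg_right haB (mul_nonneg hq0 hp0)
      _ ≤ _ := mul_le_mul_of_nonneg_left key hB0.le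
  have hdom : Integrable (fun z => B * (K * |Ψ (lam * z.2 l)|
      + θ * (Ψ (lam * z.2 l)) ^ 2 + (4 * θ)⁻¹ * (if K < |H z| then (H z) ^ 2 else 0))) P.μ :=
    (((hMabs.1.const_mul K).add (hMsq.1.const_mul θ)).add (hKi.const_mul _)).const_mul B
  have hmeas : AEStronglyMeasurable (fun z => |H z| * |a z| * |Ψ (lam * z.2 l)|) P.μ := by
    refine (hH.aestronglyMeasurable.norm.mul hac.abs.aestronglyMeasurable).mul ?_
    have : Continuous (fun z : X => |Ψ (lam * z.2 l)|) := by fun_prop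
    exact this.aestronglyMeasurable
  have hint : Integrable (fun z => |H z| * |a z| * |Ψ (lam * z.2 l)|) P.μ := by
    refine hdom.mono' hmeas (Eventually.of_forall fun z => ?_)
    rw [Real.norm_eq_abs, abs_of_nonneg (by positivity)]
    exact hpt z
  refine ⟨hint, ?_⟩
  calc ∫ z, |H z| * |a z| * |Ψ (lam * z.2 l)| ∂P.μ
      ≤ ∫ z, B * (K * |Ψ (lam * z.2 l)|
      + θ * (Ψ (lam * z.2 l)) ^ 2 + (4 * θ)⁻¹ * (if K < |H z| then (H z) ^ 2 else 0)) ∂P.μ :=
        integral_mono hint hdom hpt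
    _ = B * (K * (∫ z, |Ψ (lam * z.2 l)| ∂P.μ) + θ * (∫ z, (Ψ (lam * z.2 l)) ^ 2 ∂P.μ)
      + (4 * θ)⁻¹ * ∫ z, (if K < |H z| then (H z) ^ 2 else 0) ∂P.μ) := by
        have i1 := hMabs.1.const_mul K
        have i2 := hMsq.1.const_mul θ
        have i3 := hKi.const_mul (4 * θ)⁻¹
        have i12 : Integrable (fun z : X => K * |Ψ (lam * z.2 l)|
            + θ * (Ψ (lam * z.2 l)) ^ 2) P.μ := i1.add i2
        rw [integral_const_mul, integral_add i12 i3, integral_add i1 i2,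
          integral_const_mul, integral_const_mul, integral_const_mul]
    _ ≤ B * (K * (M * (η / (3 * B * K * (M + 1)))) + θ * M
      + (4 * θ)⁻¹ * (η * (4 * θ) / (3 * B))) := by
        gcongr
        · exact hMabs.2.trans (mul_le_mul_of_nonneg_left hΨ1 hM0)
        · exact hMsq.2
    _ = η / 3 * (M / (M + 1)) + η / 3 * (M / (M + 1)) + η / 3 := by
        rw [hθ]
        field_simp
    _ ≤ η / 3 * 1 + η / 3 * 1 + η / 3 := by
        have : M / (M + 1) ≤ 1 := by
          rw [div_le_one (by linarith)]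
          linarith
        gcongr
    _ = η := by ring

end H37.LES
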