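import Pool.Agent.H59.Per.Defs

/-! Module CLOSE of MP_588c6d_co, from CELL by sampling. -/

set_option autoImplicit false

open Finset

namespace Pool.Agent.H59.Per

lemma exists_next (V : Finset ℝ) (θ : ℝ) : ∃ θ' : ℝ, ∀ v ∈ V, (v < θ' ↔ v ≤ θ) ∧ v ≠ θ' := by
  have h : ∀ᶠ θ' in nhdsWithin θ (Set.Ioi θ), ∀ v ∈ V, (v < θ' ↔ v ≤ θ) ∧ v ≠ θ' := by
    rw [Filter.eventually_all_finset]
    intro v _
    by_cases hv : v ≤ θ
    · filter_upwards [self_mem_nhdsWithin] with θ' hθ'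
      have : θ < θ' := hθ'
      exact ⟨⟨fun _ => hv, fun _ => lt_of_le_of_lt hv this⟩, (lt_of_le_of_lt hv this).ne⟩
    · have hv' : θ < v := not_le.1 hv
      have h2 : ∀ᶠ θ' in nhdsWithin θ (Set.Ioi θ), θ' < v :=
        Filter.Eventually.filter_mono nhdsWithin_le_nhds (eventually_lt_nhds hv')
      filter_upwards [h2] with θ' hθ'
      exact ⟨⟨fun h => absurd hθ' (not_lt.2 h.le), fun h => absurd h hv⟩, hθ'.ne'⟩
  exact h.exists

lemma dd_comm (p q : Pl) : dd p q = dd q p := by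
  unfold dd
  congr 1
  ring

/-- the range `w = (a, y, θ)` separates `x` and `x'` -/
def sepP (x x' : Pl) (w : Pl × Pl × ℝ) : Prop :=
  (pr w.1 w.2.1 x ≤ w.2.2 ∧ w.2.2 < pr w.1 w.2.1 x') ∨
    (pr w.1 w.2.1 x' ≤ w.2.2 ∧ w.2.2 < pr w.1 w.2.1 x)

open Classical in
lemma card_sep (P : Finset Pl) (T : Finset ℝ) (x x' : Pl) :
    ((P ×ˢ P ×ˢ T).filter (sepP x x')).card
      = ∑ a ∈ P, ∑ y ∈ P, sepc T (pr a y x) (pr a y x') := by
  rw [Finset.card_filter, Finset.sum_product]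
  refine Finset.sum_congr rfl fun a _ => ?_
  rw [Finset.sum_product]
  refine Finset.sum_congr rfl fun y _ => ?_
  unfold sepc sepP
  rw [Finset.card_filter]
  refine Finset.sum_congr rfl fun θ _ => ?_
  dsimp only
  congr

open Classical in
/-- sampling: some `m`-tuple of ranges separates all the pairs that are separated by many ranges -/
lemma sampling {α β : Type*} (W : Finset α) (E : Finset β) (S : β → α → Prop) (m n : ℕ)
    (hn : 2 ≤ n) (hm : 0 < m) (hW : 0 < W.card) (hE : E.card ≤ n ^ 2) (κ : ℝ)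
    (hκ : κ = 3 * Real.log n / m)
    (hbad : ∀ e ∈ E, κ * W.card ≤ (W.filter (S e)).card) :
    ∃ f : Fin m → α, (∀ i, f i ∈ W) ∧ ∀ e ∈ E, ∃ i, S e (f i) := by
  by_contra hcon
  push Not at hcon
  have hsub : Fintype.piFinset (fun _ : Fin m => W) ⊆
      E.biUnion (fun e => Fintype.piFinset (fun _ : Fin m => W.filter (fun w => ¬ S e w))) := by
    intro f hf
    rw [Fintype.mem_piFinset] at hf
    obtain ⟨e, he, hne⟩ := hcon f hf
    rw [Finset.mem_biUnion]
    refine ⟨e, he, ?_⟩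
    rw [Fintype.mem_piFinset]
    intro i
    rw [Finset.mem_filter]
    exact ⟨hf i, hne i⟩
  have h1 := (Finset.card_le_card hsub).trans Finset.card_biUnion_le
  rw [Fintype.card_piFinset_const] at h1
  simp only [Fintype.card_piFinset_const] at h1
  have hn0 : (0:ℝ) < n := by positivity
  have hm0 : (0:ℝ) < m := by exact_mod_cast hm
  have hN0 : (0:ℝ) < W.card := by exact_mod_cast hW
  have h2 : ∀ e ∈ E, (((W.filter (fun w => ¬ S e w)).card : ℝ)) ^ m
      ≤ (n : ℝ)⁻¹ ^ 3 * (W.card : ℝ) ^ m := by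
    intro e he
    have h3 := hbad e he
    have h4 : ((W.filter (S e)).card : ℝ) + (W.filter (fun w => ¬ S e w)).card = W.card := by
      exact_mod_cast Finset.card_filter_add_card_filter_not (S e)
    have h5 : ((W.filter (fun w => ¬ S e w)).card : ℝ) ≤ Real.exp (-κ) * W.card := by
      have h6 : 1 - κ ≤ Real.exp (-κ) := by
        have := Real.add_one_le_exp (-κ)
        linarith
      nlinarith
    calc (((W.filter (fun w => ¬ S e w)).card : ℝ)) ^ m ≤ (Real.exp (-κ) * W.card) ^ m :=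
          pow_le_pow_left₀ (by positivity) h5 m
      _ = Real.exp (-κ) ^ m * (W.card : ℝ) ^ m := mul_pow _ _ _
      _ = (n : ℝ)⁻¹ ^ 3 * (W.card : ℝ) ^ m := by
          congr 1
          rw [← Real.exp_nat_mul]
          have : (m : ℝ) * -κ = -(3 * Real.log n) := by
            rw [hκ]
            field_simp
          rw [this, Real.exp_neg, show (3 : ℝ) * Real.log n = ((3 : ℕ) : ℝ) * Real.log n by norm_num,
            Real.exp_nat_mul, Real.exp_log hn0, inv_pow]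
  have h7 : ((W.card : ℝ)) ^ m ≤ (n : ℝ) ^ 2 * ((n : ℝ)⁻¹ ^ 3 * (W.card : ℝ) ^ m) := by
    calc ((W.card : ℝ)) ^ m ≤ ∑ e ∈ E, (((W.filter (fun w => ¬ S e w)).card : ℝ)) ^ m := by
          exact_mod_cast h1
      _ ≤ ∑ _e ∈ E, (n : ℝ)⁻¹ ^ 3 * (W.card : ℝ) ^ m := Finset.sum_le_sum h2
      _ = E.card * ((n : ℝ)⁻¹ ^ 3 * (W.card : ℝ) ^ m) := by simp
      _ ≤ (n : ℝ) ^ 2 * ((n : ℝ)⁻¹ ^ 3 * (W.card : ℝ) ^ m) := by
          refine mul_le_mul_of_nonneg_right ?_ (by positivity)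
          exact_mod_cast hE
  have h8 : (n : ℝ) ^ 2 * ((n : ℝ)⁻¹ ^ 3 * (W.card : ℝ) ^ m) = (n : ℝ)⁻¹ * (W.card : ℝ) ^ m := by
    field_simp
  rw [h8] at h7
  have h9 : (0:ℝ) < (W.card : ℝ) ^ m := by positivity
  have h10 : (n : ℝ)⁻¹ ≤ 2⁻¹ := inv_anti₀ two_pos (by exact_mod_cast hn)
  nlinarith


/-- four points in one fibre -/
lemma four_points {β : Type*} [DecidableEq β] (P : Finset Pl) (g : Pl → β) (h : (P.image g).card * 3 < P.card) :
    ∃ X : Fin 4 → Pl, Function.Injective X ∧ (∀ j, X j ∈ P) ∧ ∀ j, g (X j) = g (X 0) := by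
  obtain ⟨y, hy, hycard⟩ := Finset.exists_lt_card_fiber_of_mul_lt_card_of_maps_to
    (s := P) (t := P.image g) (f := g) (n := 3) (fun a ha => Finset.mem_image_of_mem _ ha) h
  obtain ⟨s, hs, hs4⟩ := Finset.exists_subset_card_eq (show 4 ≤ _ from hycard)
  set e := s.equivFinOfCardEq hs4 with he
  have h1 : ∀ j, ((e.symm j : Pl)) ∈ P ∧ g (e.symm j : Pl) = y := fun j =>
    Finset.mem_filter.1 (hs (e.symm j).2)
  refine ⟨fun j => (e.symm j : Pl), ?_, fun j => (h1 j).1, fun j => ?_⟩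
  · intro i j hij
    exact e.symm.injective (Subtype.ext hij)
  · rw [(h1 j).2, (h1 0).2]

lemma four_pts (P : Finset Pl) (h : 4 ≤ P.card) :
    ∃ X : Fin 4 → Pl, Function.Injective X ∧ (∀ j, X j ∈ P) := by
  classical
  obtain ⟨s, hs, hs4⟩ := Finset.exists_subset_card_eq h
  set e := s.equivFinOfCardEq hs4 with he
  refine ⟨fun j => (e.symm j : Pl), ?_, fun j => hs (e.symm j).2⟩
  intro i j hij
  exact e.symm.injective (Subtype.ext hij)

/-- choice of the number `m` of ranges -/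
lemma params (C0 n : ℕ) (hn : 6 * C0 + 6 < n) : ∃ m : ℕ, 0 < m ∧ C0 * (m ^ 2 + 1) * 3 < n ∧
    3 * Real.log n / m ≤ 6 * Real.sqrt ((6 * C0 + 6 : ℕ) : ℝ) * (Real.log n / Real.sqrt n) := by
  set B : ℕ := 6 * C0 + 6 with hB
  have hBpos : (0:ℝ) < B := by positivity
  have hnB : B ≤ n := hn.le
  refine ⟨Nat.sqrt (n / B), ?_, ?_, ?_⟩
  · rw [Nat.sqrt_pos]
    exact Nat.div_pos hnB (by omega)
  · have hm2 : Nat.sqrt (n / B) * Nat.sqrt (n / B) ≤ n / B := Nat.sqrt_le _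
    have hm4 : B * (Nat.sqrt (n / B) * Nat.sqrt (n / B)) ≤ n :=
      (Nat.mul_le_mul_left B hm2).trans (Nat.mul_div_le n B)
    generalize Nat.sqrt (n / B) = m at hm4 ⊢
    have h1 : 6 * (C0 * (m * m)) ≤ n := by
      refine le_trans ?_ hm4
      rw [hB]
      nlinarith
    have h2 : C0 * (m ^ 2 + 1) * 3 = 3 * (C0 * (m * m)) + 3 * C0 := by ring
    rw [h2]
    omega
  · have hm1 : 0 < Nat.sqrt (n / B) := by
      rw [Nat.sqrt_pos]
      exact Nat.div_pos hnB (by omega)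
    have hm3 : n / B < (Nat.sqrt (n / B) + 1) * (Nat.sqrt (n / B) + 1) := Nat.lt_succ_sqrt _
    have h2 : n < B * (n / B + 1) := Nat.lt_mul_div_succ n (by omega)
    generalize Nat.sqrt (n / B) = m at hm1 hm3 ⊢
    generalize n / B = q at hm3 h2
    have hnR : (0:ℝ) < n := by exact_mod_cast (by omega : 0 < n)
    have hmR : (0:ℝ) < m := by exact_mod_cast hm1
    have hlog : 0 ≤ Real.log n := Real.log_nonneg (by exact_mod_cast (by omega : 1 ≤ n))
    have hsq : Real.sqrt n ≤ 2 * Real.sqrt B * m := by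
      have h1 : (n : ℝ) ≤ B * (2 * m) ^ 2 := by
        have h3 : n ≤ B * ((m + 1) * (m + 1)) := by
          refine h2.le.trans (Nat.mul_le_mul_left B ?_)
          omega
        have h4 : (m + 1) * (m + 1) ≤ (2 * m) ^ 2 := by nlinarith
        have h5 := h3.trans (Nat.mul_le_mul_left B h4)
        calc (n : ℝ) ≤ ((B * (2 * m) ^ 2 : ℕ) : ℝ) := Nat.cast_le.2 h5
          _ = B * (2 * m) ^ 2 := by push_cast; ring
      rw [Real.sqrt_le_left (by positivity)]
      calc (n : ℝ) ≤ B * (2 * m) ^ 2 := h1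
        _ = (2 * Real.sqrt B * m) ^ 2 := by
            rw [mul_pow, mul_pow, mul_pow, Real.sq_sqrt hBpos.le]
            ring
    rw [div_le_iff₀ hmR]
    have hs0 : 0 < Real.sqrt n := Real.sqrt_pos.2 hnR
    rw [show 6 * Real.sqrt B * (Real.log n / Real.sqrt n) * m
      = (6 * Real.sqrt B * m * Real.log n) / Real.sqrt n by ring, le_div_iff₀ hs0]
    nlinarith

/-- inside / outside vector of a point for a tuple of ranges -/
noncomputable def cls (m : ℕ) (A Y : Fin m → Pl) (σ : Fin m → ℝ) (p : Pl) : Fin m → Bool :=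
  fun i => decide (dd p (A i) + dd p (Y i) < σ i)

lemma cls_iff (V : Finset ℝ) (th : ℝ → ℝ) (hth : ∀ θ, ∀ v ∈ V, (v < th θ ↔ v ≤ θ) ∧ v ≠ th θ)
    (m : ℕ) (A Y : Fin m → Pl) (τ : Fin m → ℝ) (p q : Pl)
    (hp : ∀ i, pr (A i) (Y i) p ∈ V) (hq : ∀ i, pr (A i) (Y i) q ∈ V)
    (h : cls m A Y (fun i => th (τ i) - dd (A i) (Y i)) p
      = cls m A Y (fun i => th (τ i) - dd (A i) (Y i)) q) (i : Fin m) :
    (pr (A i) (Y i) p ≤ τ i ↔ pr (A i) (Y i) q ≤ τ i) := by
  have h1 := congrFun h i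
  unfold cls at h1
  rw [decide_eq_decide] at h1
  rw [← (hth (τ i) _ (hp i)).1, ← (hth (τ i) _ (hq i)).1]
  unfold pr
  rw [dd_comm (A i) p, dd_comm (Y i) p, dd_comm (A i) q, dd_comm (Y i) q]
  constructor
  · intro h2
    have := h1.1 (by linarith)
    linarith
  · intro h2
    have := h1.2 (by linarith)
    linarith

open Classical in
theorem close_aux (C0 : ℕ) (hC0 : ∀ (m : ℕ) (A Y : Fin m → Pl) (σ : Fin m → ℝ) (P : Finset Pl),
    (∀ p ∈ P, ∀ i, dd p (A i) + dd p (Y i) ≠ σ i) →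
    (P.image (cls m A Y σ)).card ≤ C0 * (m ^ 2 + 1))
    (P : Finset Pl) (T : Finset ℝ) (hP : 6 * C0 + 6 < P.card) :
    ∃ X : Fin 4 → Pl, Function.Injective X ∧ (∀ j, X j ∈ P) ∧
      ∀ j, ∑ a ∈ P, ∑ y ∈ P, (sepc T (pr a y (X 0)) (pr a y (X j)) : ℝ) ≤
        (6 * Real.sqrt ((6 * C0 + 6 : ℕ) : ℝ)) * (Real.log P.card / Real.sqrt P.card)
          * (P.card : ℝ) ^ 2 * T.card := by
  rcases Nat.eq_zero_or_pos T.card with hT | hT
  · have hT0 : T = ∅ := Finset.card_eq_zero.1 hT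
    obtain ⟨X, hX1, hX2⟩ := four_pts P (by omega)
    refine ⟨X, hX1, hX2, fun j => ?_⟩
    subst hT0
    simp [sepc]
  obtain ⟨m, hm1, hcount, hκ2⟩ := params C0 P.card hP
  set κ : ℝ := 3 * Real.log P.card / m with hκ
  have hPpos : 0 < P.card := by omega
  have hWcard : (((P ×ˢ P ×ˢ T).card : ℕ) : ℝ) = (P.card : ℝ) ^ 2 * T.card := by
    rw [Finset.card_product, Finset.card_product]
    push_cast
    ring
  have hWpos : 0 < (P ×ˢ P ×ˢ T).card := by
    rw [Finset.card_product, Finset.card_product]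
    positivity
  obtain ⟨f, hfW, hfsep⟩ := sampling (P ×ˢ P ×ˢ T)
    ((P ×ˢ P).filter (fun e => κ * ((P ×ˢ P ×ˢ T).card : ℕ)
      < ((P ×ˢ P ×ˢ T).filter (sepP e.1 e.2)).card))
    (fun e => sepP e.1 e.2) m P.card (by omega) hm1 hWpos
    (by
      refine (Finset.card_filter_le _ _).trans ?_
      rw [Finset.card_product, sq])
    κ hκ
    (by
      intro e he
      exact (Finset.mem_filter.1 he).2.le)
  choose th hth using exists_next ((P ×ˢ P ×ˢ P).image (fun t => pr t.1 t.2.1 t.2.2))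
  have hfW2 : ∀ i, (f i).1 ∈ P ∧ (f i).2.1 ∈ P := by
    intro i
    have := hfW i
    rw [Finset.mem_product, Finset.mem_product] at this
    exact ⟨this.1, this.2.1⟩
  have hval : ∀ p ∈ P, ∀ i, pr (f i).1 (f i).2.1 p
      ∈ (P ×ˢ P ×ˢ P).image (fun t => pr t.1 t.2.1 t.2.2) := by
    intro p hp i
    rw [Finset.mem_image]
    exact ⟨((f i).1, (f i).2.1, p), by
      rw [Finset.mem_product, Finset.mem_product]
      exact ⟨(hfW2 i).1, (hfW2 i).2, hp⟩, rfl⟩
  have hcell := hC0 m (fun i => (f i).1) (fun i => (f i).2.1)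
    (fun i => th (f i).2.2 - dd (f i).1 (f i).2.1) P (by
      intro p hp i heq
      have := (hth (f i).2.2 _ (hval p hp i)).2
      apply this
      unfold pr
      rw [dd_comm (f i).1 p, dd_comm (f i).2.1 p]
      linarith)
  obtain ⟨X, hX1, hX2, hX3⟩ := four_points P (cls m (fun i => (f i).1) (fun i => (f i).2.1)
    (fun i => th (f i).2.2 - dd (f i).1 (f i).2.1))
    (lt_of_le_of_lt (Nat.mul_le_mul_right 3 hcell) hcount)
  refine ⟨X, hX1, hX2, fun j => ?_⟩
  have hsame := cls_iff _ th hth m (fun i => (f i).1) (fun i => (f i).2.1) (fun i => (f i).2.2)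
    (X 0) (X j) (hval _ (hX2 0)) (hval _ (hX2 j)) (hX3 j).symm
  have hnotbad : (((P ×ˢ P ×ˢ T).filter (sepP (X 0) (X j))).card : ℝ)
      ≤ κ * ((P ×ˢ P ×ˢ T).card : ℕ) := by
    by_contra hcon
    rw [not_le] at hcon
    obtain ⟨i, hi⟩ := hfsep (X 0, X j) (by
        rw [Finset.mem_filter, Finset.mem_product]
        exact ⟨⟨hX2 0, hX2 j⟩, hcon⟩)
    rcases hi with hi | hi
    · exact absurd ((hsame i).1 hi.1) (not_le.2 hi.2)
    · exact absurd ((hsame i).2 hi.1) (not_le.2 hi.2)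
  rw [card_sep, hWcard] at hnotbad
  rw [Nat.cast_sum] at hnotbad
  simp_rw [Nat.cast_sum] at hnotbad
  refine hnotbad.trans ?_
  calc κ * ((P.card : ℝ) ^ 2 * T.card)
      ≤ (6 * Real.sqrt ((6 * C0 + 6 : ℕ) : ℝ) * (Real.log P.card / Real.sqrt P.card))
        * ((P.card : ℝ) ^ 2 * T.card) :=
        mul_le_mul_of_nonneg_right hκ2 (by positivity)
    _ = _ := by ring

theorem close (hcell : CELL) : CLOSE := by
  obtain ⟨C0, hC0⟩ := hcell
  refine ⟨6 * Real.sqrt ((6 * C0 + 6 : ℕ) : ℝ), by positivity, 6 * C0 + 6 + 1, ?_⟩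
  intro P T hP
  exact close_aux C0 (fun m A Y σ P h => hC0 m A Y σ P h) P T hP

end Pool.Agent.H59.Per
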