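import Mathlib

/-!
Shift radix systems: basic definitions, following Akiyama, Borbely, Brunotte, Petho, Thuswaldner.
-/

set_option autoImplicit false

namespace Pool.Agent.H93.SRS

open Polynomial

/-- The shift radix system map `τ_r (z_0, …, z_{d-1}) = (z_1, …, z_{d-1}, -⌊r z⌋)`. -/
noncomputable def tau {d : ℕ} (r : Fin d → ℝ) (z : Fin d → ℤ) : Fin d → ℤ :=
  fun i => if h : (i : ℕ) + 1 < d then z ⟨(i : ℕ) + 1, h⟩ else -⌊∑ j, r j * (z j : ℝ)⌋

/-- The polynomial `χ_r = X^d + r_{d-1} X^{d-1} + ⋯ + r_0`, over the complex numbers. -/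
noncomputable def chi {d : ℕ} (r : Fin d → ℝ) : ℂ[X] :=
  X ^ d + ∑ i : Fin d, C (r i : ℂ) * X ^ (i : ℕ)

/-- `E_d`: all complex roots of `χ_r` lie in the open unit disc. -/
def E (d : ℕ) : Set (Fin d → ℝ) :=
  {r | ∀ w : ℂ, (chi r).IsRoot w → ‖w‖ < 1}

/-- `E_d^(C)`: points of the closure of `E_d` such that `χ_r` has a non-real unimodular root. -/
def EC (d : ℕ) : Set (Fin d → ℝ) :=
  {r | r ∈ closure (E d) ∧ ∃ w : ℂ, w.im ≠ 0 ∧ ‖w‖ = 1 ∧ (chi r).IsRoot w}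

/-- The orbit of `z` under `τ_r` is ultimately periodic. -/
def UltPeriodic {d : ℕ} (r : Fin d → ℝ) (z : Fin d → ℤ) : Prop :=
  ∃ n p : ℕ, 1 ≤ p ∧ (tau r)^[n + p] z = (tau r)^[n] z

/-- A polynomial of this shape all of whose roots have modulus `≤ 1` is a limit of
polynomials all of whose roots have modulus `< 1` (shrink the roots). -/
theorem mem_closure_of_roots {d : ℕ} (r : Fin d → ℝ)
    (h : ∀ w : ℂ, (chi r).IsRoot w → ‖w‖ ≤ 1) : r ∈ closure (E d) := by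
  have hcont : Filter.Tendsto (fun ρ : ℝ => (fun i : Fin d => ρ ^ (d - (i : ℕ)) * r i))
      (nhdsWithin 1 (Set.Ioo 0 1)) (nhds r) := by
    have hc : Continuous (fun ρ : ℝ => (fun i : Fin d => ρ ^ (d - (i : ℕ)) * r i)) := by
      fun_prop
    have h1 := hc.tendsto 1
    simp only [one_pow, one_mul] at h1
    exact h1.mono_left nhdsWithin_le_nhds
  have : (nhdsWithin (1 : ℝ) (Set.Ioo 0 1)).NeBot := by
    have : (1 : ℝ) ∈ closure (Set.Ioo (0 : ℝ) 1) := by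
      rw [closure_Ioo (by norm_num)]; simp
    exact mem_closure_iff_nhdsWithin_neBot.mp this
  refine mem_closure_of_tendsto hcont ?_
  filter_upwards [self_mem_nhdsWithin] with ρ hρ
  obtain ⟨h0, h1⟩ := hρ
  intro w hw
  have hρ0 : (ρ : ℂ) ≠ 0 := by exact_mod_cast h0.ne'
  have key : (chi r).IsRoot (w / ρ) := by
    rw [IsRoot.def] at hw ⊢
    unfold chi at hw ⊢
    simp only [eval_add, eval_pow, eval_X, eval_finsetSum, eval_mul, eval_C] at hw ⊢
    have : (w / (ρ : ℂ)) ^ d + ∑ i : Fin d, (r i : ℂ) * (w / (ρ : ℂ)) ^ (i : ℕ) =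
        ((ρ : ℂ) ^ d)⁻¹ * (w ^ d + ∑ i : Fin d, ((ρ ^ (d - (i : ℕ)) * r i : ℝ) : ℂ) * w ^ (i : ℕ)) := by
      rw [mul_add, Finset.mul_sum]
      congr 1
      · rw [div_pow]; field_simp
      · refine Finset.sum_congr rfl fun i _ => ?_
        have hi : (i : ℕ) ≤ d := i.2.le
        have hd : (ρ : ℂ) ^ d = (ρ : ℂ) ^ (d - (i : ℕ)) * (ρ : ℂ) ^ (i : ℕ) := by
          rw [← pow_add]; congr 1; omega
        rw [hd, div_pow]
        push_cast
        have h3 : (ρ : ℂ) ^ (d - (i : ℕ)) ≠ 0 := pow_ne_zero _ hρ0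
        have h4 : (ρ : ℂ) ^ (i : ℕ) ≠ 0 := pow_ne_zero _ hρ0
        field_simp
    rw [this, hw, mul_zero]
  have hle := h _ key
  rw [norm_div, Complex.norm_real, Real.norm_eq_abs, abs_of_pos h0, div_le_one h0] at hle
  linarith

end Pool.Agent.H93.SRS
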